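import Mathlib
import Pool.Agent.CpK.Defs
import Pool.Agent.CpK.Chain
import Pool.Agent.CpK.Obstruction

open Set Filter Topology MeasureTheory

namespace Pool.Agent.Results.MP_fa8dfe_an.PositiveClassification

open CpK

universe u v

section

variable {K : Type u} {L : Type v} [TopologicalSpace K] [CompactSpace K] [T2Space K] [Countable K]
  [TopologicalSpace L] [CompactSpace L] [T2Space L] [Countable L]

omit [T2Space K] [Countable K] [T2Space L] [Countable L] in
/-- A positive linear bijection between spaces of continuous functions is an isomorphism of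
Banach spaces. -/
theorem posIso_of_linear (T : C(K, ℝ) ≃ₗ[ℝ] C(L, ℝ)) (hT : ∀ f, 0 ≤ f → 0 ≤ T f) :
    PosIso K L := by
  have hbound : ∀ f : C(K, ℝ), ‖T f‖ ≤ ‖T 1‖ * ‖f‖ := by
    intro f
    rw [ContinuousMap.norm_le _ (by positivity)]
    intro y
    have h1 : 0 ≤ ‖f‖ • (1 : C(K, ℝ)) - f := by
      intro x
      have := (le_abs_self (f x)).trans (f.norm_coe_le_norm x)
      simpa using this
    have h2 : 0 ≤ ‖f‖ • (1 : C(K, ℝ)) + f := by
      intro x
      have := (neg_abs_le (f x))
      have h3 : |f x| ≤ ‖f‖ := f.norm_coe_le_norm x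
      have : 0 ≤ ‖f‖ + f x := by linarith
      simpa using this
    have h3 := hT _ h1 y
    have h4 := hT _ h2 y
    rw [map_sub, map_smul] at h3
    rw [map_add, map_smul] at h4
    have h3' : 0 ≤ ‖f‖ * T 1 y - T f y := h3
    have h4' : 0 ≤ ‖f‖ * T 1 y + T f y := h4
    have h5 : T 1 y ≤ ‖T 1‖ := (le_abs_self _).trans ((T 1).norm_coe_le_norm y)
    have h6 : ‖f‖ * T 1 y ≤ ‖T 1‖ * ‖f‖ := by
      rw [mul_comm]
      gcongr
    rw [Real.norm_eq_abs, abs_le]
    constructor <;> linarith
  have hcont : Continuous T := (T.toLinearMap.mkContinuous ‖T 1‖ hbound).continuous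
  exact ⟨T.toContinuousLinearEquivOfContinuous hcont, hT⟩

/-- The rank obstructions. -/
theorem obstruction (T : C(K, ℝ) ≃L[ℝ] C(L, ℝ)) (hT : ∀ f, 0 ≤ f → 0 ≤ T f) :
    (∀ α : Ordinal.{0}, (cb (univ : Set K) α).Nonempty → (cb (univ : Set L) α).Nonempty) ∧
    (∀ a : Ordinal.{0}, cb (univ : Set K) (Ordinal.omega0 ^ a) = ∅ →
      cb (univ : Set L) (Ordinal.omega0 ^ a) = ∅) := by
  let _ : MeasurableSpace K := borel K
  have : BorelSpace K := ⟨rfl⟩
  obtain ⟨μ, hfin, hreg, hμ⟩ := exists_measures (T : C(K, ℝ) →ₗ[ℝ] C(L, ℝ)) hT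
  have hind : ∀ (U : Set K) (hU : IsClopen U) (y : L), (μ y).real U = T (ind U hU) y := by
    intro U hU y
    have h1 := hμ y (ind U hU)
    have h2 : ∫ x, ind U hU x ∂(μ y) = (μ y).real U := by
      have : (fun x => ind U hU x) = U.indicator (fun _ => (1 : ℝ)) := rfl
      rw [this, integral_indicator hU.isOpen.measurableSet]
      simp
    rw [← h2, h1]
    rfl
  have hcont : ∀ U : Set K, IsClopen U → Continuous fun y => (μ y).real U := by
    intro U hU
    have : (fun y => (μ y).real U) = fun y => T (ind U hU) y := by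
      ext y
      exact hind U hU y
    rw [this]
    exact (T (ind U hU)).continuous
  have hB : ∀ y, (μ y).real univ ≤ ‖T (ind univ isClopen_univ)‖ := by
    intro y
    rw [hind univ isClopen_univ y]
    exact (le_abs_self _).trans ((T (ind univ isClopen_univ)).norm_coe_le_norm y)
  set D : ℝ := ‖(T.symm : C(L, ℝ) →L[ℝ] C(K, ℝ))‖ + 1 with hD
  have hDpos : 0 < D := by positivity
  have hsymm : ∀ g : C(L, ℝ), ‖T.symm g‖ ≤ D * ‖g‖ := by
    intro g
    have h1 := (T.symm : C(L, ℝ) →L[ℝ] C(K, ℝ)).le_opNorm g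
    have h2 : ‖(T.symm : C(L, ℝ) →L[ℝ] C(K, ℝ))‖ * ‖g‖ ≤ D * ‖g‖ := by
      gcongr
      linarith
    exact h1.trans h2
  constructor
  · intro α ⟨x, hx⟩
    have hc : 0 < 1 / (2 * D) := by positivity
    obtain ⟨y, hy, -⟩ := push_rank hfin hreg hcont hc (by
      intro U hU hne
      by_contra hcon
      push Not at hcon
      have h1 : ‖T (ind U hU)‖ ≤ 1 / (2 * D) := by
        rw [ContinuousMap.norm_le _ hc.le]
        intro y
        rw [← hind U hU y, Real.norm_eq_abs, abs_of_nonneg measureReal_nonneg]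
        exact (hcon y).le
      have h2 := hsymm (T (ind U hU))
      rw [T.symm_apply_apply] at h2
      obtain ⟨x, hx⟩ := hne
      have h3 : (1 : ℝ) ≤ ‖ind U hU‖ := by
        have h4 := (ind U hU).norm_coe_le_norm x
        have h5 : ind U hU x = 1 := ind_of_mem hx
        rw [h5] at h4
        simpa using h4
      have h6 : D * ‖T (ind U hU)‖ ≤ D * (1 / (2 * D)) := by gcongr
      have h7 : D * (1 / (2 * D)) = 1 / 2 := by field_simp
      linarith) α x hx
    exact ⟨y, hy⟩
  · intro a ha
    refine omega_obstruction hfin hreg hcont hB (ε := 1 / D) ?_ a univ univ 0 isClosed_univ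
      isClosed_univ ha (by simpa using hDpos) (fun y _ => by simp)
    intro y y' hne
    obtain ⟨V, hV, hyV, hVs⟩ := exists_clopen_nhd (isOpen_ne.mem_nhds hne : {z | z ≠ y'} ∈ 𝓝 y)
    have hy'V : y' ∉ V := fun h => hVs h rfl
    refine ⟨(1 / D) • T.symm (ind V hV), ?_, ?_⟩
    · intro x
      have h1 := hsymm (ind V hV)
      have h2 : ‖ind V hV‖ ≤ 1 := by
        rw [ContinuousMap.norm_le _ zero_le_one]
        intro z
        by_cases hz : z ∈ V
        · have : ind V hV z = 1 := ind_of_mem hz
          rw [this]; simp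
        · have : ind V hV z = 0 := ind_of_notMem hz
          rw [this]; simp
      have h3 : |T.symm (ind V hV) x| ≤ D := by
        have h4 := (T.symm (ind V hV)).norm_coe_le_norm x
        rw [Real.norm_eq_abs] at h4
        have h5 : D * ‖ind V hV‖ ≤ D * 1 := by gcongr
        linarith
      rw [ContinuousMap.smul_apply, smul_eq_mul, abs_mul, abs_of_pos (by positivity)]
      rw [div_mul_eq_mul_div, one_mul, div_le_one hDpos]
      exact h3
    · rw [hμ, hμ]
      have h1 : T ((1 / D) • T.symm (ind V hV)) = (1 / D) • ind V hV := by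
        rw [map_smul, T.apply_symm_apply]
      have h2 : (T : C(K, ℝ) →ₗ[ℝ] C(L, ℝ)) ((1 / D) • T.symm (ind V hV)) =
          (1 / D) • ind V hV := h1
      rw [h2]
      have e1 : ind V hV y = 1 := ind_of_mem hyV
      have e2 : ind V hV y' = 0 := ind_of_notMem hy'V
      simp only [ContinuousMap.smul_apply, smul_eq_mul, e1, e2]
      simp

omit [CompactSpace K] [T2Space K] [Countable K] [CompactSpace L] [T2Space L] [Countable L] in
theorem finite_finite [T1Space K] [T1Space L] [Finite K] [Finite L]
    (T : C(K, ℝ) ≃ₗ[ℝ] C(L, ℝ)) : Nonempty (K ≃ₜ L) := by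
  have : Fintype K := Fintype.ofFinite K
  have : Fintype L := Fintype.ofFinite L
  have : DiscreteTopology K := inferInstance
  have : DiscreteTopology L := inferInstance
  have e1 : C(K, ℝ) ≃ₗ[ℝ] (K → ℝ) :=
    { (ContinuousMap.equivFnOfDiscrete : C(K, ℝ) ≃ (K → ℝ)) with
      map_add' := fun f g => rfl
      map_smul' := fun c g => rfl }
  have e2 : C(L, ℝ) ≃ₗ[ℝ] (L → ℝ) :=
    { (ContinuousMap.equivFnOfDiscrete : C(L, ℝ) ≃ (L → ℝ)) with
      map_add' := fun f g => rfl
      map_smul' := fun c g => rfl }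
  have e3 : (K → ℝ) ≃ₗ[ℝ] (L → ℝ) := e1.symm.trans (T.trans e2)
  have h := e3.finrank_eq
  rw [Module.finrank_fintype_fun_eq_card, Module.finrank_fintype_fun_eq_card] at h
  obtain ⟨e⟩ := Fintype.card_eq.1 h
  exact ⟨{ e with
    continuous_toFun := continuous_of_discreteTopology
    continuous_invFun := continuous_of_discreteTopology }⟩

end

/-- **Positive classification.** For countable compact Hausdorff spaces `K`, `L` there is a positive
linear homeomorphism of `C_p(K)` onto `C_p(L)` if and only if there is a positive isomorphism of the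
Banach space `C(K)` onto `C(L)`. -/
theorem result (K : Type u) (L : Type v)
    [TopologicalSpace K] [CompactSpace K] [T2Space K] [Countable K]
    [TopologicalSpace L] [CompactSpace L] [T2Space L] [Countable L] :
    PosLinHomeoCp K L ↔ PosIso K L := by
  constructor
  · rintro ⟨T, hT, -, -⟩
    exact posIso_of_linear T hT
  · rintro ⟨T, hT⟩
    obtain ⟨ob1, ob2⟩ := obstruction T hT
    by_cases hK : cb (univ : Set K) 1 = ∅
    · have hL : cb (univ : Set L) 1 = ∅ := by
        have := ob2 0
        rw [Ordinal.opow_zero] at this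
        exact this hK
      have hKf : Finite K := finite_univ_iff.1 (finite_of_cb_one isClosed_univ hK)
      have hLf : Finite L := finite_univ_iff.1 (finite_of_cb_one isClosed_univ hL)
      obtain ⟨e⟩ := finite_finite T.toLinearEquiv
      exact PosLinHomeoCp.of_homeo e
    · have hK1 : (cb (univ : Set K) 1).Nonempty := nonempty_iff_ne_empty.2 hK
      have hKne : (univ : Set K).Nonempty := hK1.mono cb_subset
      obtain ⟨γ, hγ1, hγ2⟩ := exists_rank (X := K) isClosed_univ hKne
      have hγ : 1 ≤ γ := by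
        by_contra hlt
        push Not at hlt
        have := cb_eq_empty_of_lt hγ2 hlt
        exact hK this
      have hLγ := ob1 γ hγ1
      have hLne : (univ : Set L).Nonempty := hLγ.mono cb_subset
      obtain ⟨δ, hδ1, hδ2⟩ := exists_rank (X := L) isClosed_univ hLne
      have hle : γ ≤ δ := by
        by_contra hlt
        push Not at hlt
        exact hLγ.ne_empty (cb_eq_empty_of_lt hδ2 hlt)
      -- `a = log_ω γ`
      set a := Ordinal.log Ordinal.omega0 γ with ha
      have hγ0 : γ ≠ 0 := (zero_lt_one.trans_le hγ).ne'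
      have h1 : Ordinal.omega0 ^ a ≤ γ := Ordinal.opow_log_le_self _ hγ0
      have h2 : γ < Ordinal.omega0 ^ (a + 1) := by
        have := Ordinal.lt_opow_succ_log_self Ordinal.one_lt_omega0 γ
        rwa [Order.succ_eq_add_one] at this
      have h3 : cb (univ : Set K) (Ordinal.omega0 ^ (a + 1)) = ∅ := cb_eq_empty_of_lt hγ2 h2
      have h4 := ob2 (a + 1) h3
      have h5 : δ < Ordinal.omega0 ^ (a + 1) := by
        by_contra hge
        push Not at hge
        have := cb_anti (S := (univ : Set L)) hge
        rw [h4] at this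
        exact hδ1.ne_empty (subset_empty_iff.1 this)
      have h6 : δ < γ * Ordinal.omega0 := by
        refine h5.trans_le ?_
        rw [Ordinal.opow_add, Ordinal.opow_one]
        gcongr
      exact chain hγ hγ2 hγ1 hδ2 hδ1 hle h6

end Pool.Agent.Results.MP_fa8dfe_an.PositiveClassification
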